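import Mathlib
import Pool.Agent.H759R2.Kad.Props3

open scoped ComplexOrder InnerProductSpace ComplexConjugate
open Finset

noncomputable section

namespace H759R2.Kad

universe u v

namespace A12

section lin

variable {B : Type u} [CStarAlgebra B] {ι : Type}

/-- an entry of a matrix, as a linear map -/
def ent (i j : ι) : CStarMatrix ι ι B →ₗ[ℂ] B where
  toFun X := X i j
  map_add' _ _ := rfl
  map_smul' _ _ := rfl

theorem fav_ent (Ω : Type) [Fintype Ω] (Z : Ω → CStarMatrix ι ι B) (i j : ι) :
    (fav Ω Z) i j = fav Ω (fun s => Z s i j) := by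
  show ent i j (fav Ω Z) = _
  unfold fav
  rw [map_smul, map_sum]
  rfl

theorem fav_sum {α : Type} (Ω : Type) [Fintype Ω] (S : Finset α) (f : α → Ω → B) :
    fav Ω (fun s => ∑ a ∈ S, f a s) = ∑ a ∈ S, fav Ω (f a) := by
  unfold fav
  rw [sum_comm, smul_sum]

theorem fav_ite (Ω : Type) [Fintype Ω] (c : Prop) [Decidable c] (f : Ω → B) :
    fav Ω (fun s => if c then f s else 0) = if c then fav Ω f else 0 := by
  split_ifs
  · rfl
  · simp [fav]

end lin

section comb

variable {n k : ℕ}

/-- the letters after the first -/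
def tl (σ : Fin (k + 1) → Fin n) : List (Fin n) := List.ofFn fun t : Fin k => σ t.succ

theorem tl_length (σ : Fin (k + 1) → Fin n) : (tl σ).length = k := List.length_ofFn

theorem ofFn_eq (σ : Fin (k + 1) → Fin n) : List.ofFn σ = σ 0 :: tl σ := List.ofFn_succ

theorem eq_iff (σ σ' : Fin (k + 1) → Fin n) (h0 : σ 0 = σ' 0) : tl σ = tl σ' ↔ σ = σ' := by
  constructor
  · intro h
    apply List.ofFn_injective
    rw [ofFn_eq, ofFn_eq, h0, h]
  · intro h
    rw [h]

theorem freq_iff (R : ℕ) [NeZero R] (hR : k + 1 < R) (M : Finset (Fin n)) (hM : M.card = k + 1)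
    (σ : Fin (k + 1) → Fin n) : freq R σ = ind R M ↔ Function.Injective σ ∧ univ.image σ = M := by
  classical
  constructor
  · intro h
    have hc : ∀ c, (univ.filter fun t => σ t = c).card = if c ∈ M then 1 else 0 := by
      intro c
      have h1 := congrFun h c
      unfold freq ind at h1
      have h2 : ((univ.filter fun t => σ t = c).card : ZMod R) =
          ((if c ∈ M then 1 else 0 : ℕ) : ZMod R) := by
        rw [h1]
        split_ifs <;> simp
      rw [ZMod.natCast_eq_natCast_iff'] at h2
      have h3 : (univ.filter fun t => σ t = c).card ≤ k + 1 := by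
        refine le_trans (card_le_univ _) ?_
        rw [Fintype.card_fin]
      rw [Nat.mod_eq_of_lt (by omega), Nat.mod_eq_of_lt (by split_ifs <;> omega)] at h2
      exact h2
    have himg : univ.image σ = M := by
      ext c
      constructor
      · intro hcim
        obtain ⟨t, _, ht⟩ := mem_image.1 hcim
        by_contra hcM
        have h4 := hc c
        rw [if_neg hcM, card_eq_zero] at h4
        have h5 : t ∈ univ.filter fun t => σ t = c := by simp [ht]
        rw [h4] at h5
        simp at h5
      · intro hcM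
        have h4 := hc c
        rw [if_pos hcM] at h4
        have h5 : (univ.filter fun t => σ t = c).Nonempty := by
          rw [← card_pos]; omega
        obtain ⟨t, ht⟩ := h5
        exact mem_image.2 ⟨t, mem_univ _, (mem_filter.1 ht).2⟩
    refine ⟨?_, himg⟩
    have h6 : (univ.image σ).card = (univ : Finset (Fin (k + 1))).card := by
      rw [himg, hM, card_univ, Fintype.card_fin]
    have h7 := card_image_iff.1 h6
    rw [coe_univ] at h7
    exact Set.injOn_univ.1 h7
  · rintro ⟨hinj, rfl⟩
    funext c
    unfold freq ind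
    by_cases hc : c ∈ univ.image σ
    · rw [if_pos hc]
      obtain ⟨t, _, ht⟩ := mem_image.1 hc
      have h1 : (univ.filter fun t => σ t = c) = {t} := by
        ext t'
        simp only [mem_filter, mem_univ, true_and, mem_singleton]
        constructor
        · intro h2; exact hinj (h2.trans ht.symm)
        · intro h2; rw [h2, ht]
      rw [h1, card_singleton]
      simp
    · rw [if_neg hc]
      have h1 : (univ.filter fun t => σ t = c) = ∅ := by
        ext t'
        simp only [mem_filter, mem_univ, true_and, notMem_empty, iff_false]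
        intro h2
        exact hc (mem_image.2 ⟨t', mem_univ _, h2⟩)
      rw [h1]
      simp

theorem perm_tl (σ σ' : Fin (k + 1) → Fin n) (h : Function.Injective σ)
    (h' : Function.Injective σ') (him : univ.image σ = univ.image σ') (h0 : σ 0 = σ' 0) :
    (tl σ').Perm (tl σ) := by
  have h1 : (List.ofFn σ').Perm (List.ofFn σ) := by
    rw [List.perm_ext_iff_of_nodup (List.nodup_ofFn.2 h') (List.nodup_ofFn.2 h)]
    intro c
    rw [List.mem_ofFn', List.mem_ofFn']
    have h2 := congrArg (fun S : Finset (Fin n) => c ∈ S) him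
    simp only [mem_image, mem_univ, true_and, eq_iff_iff] at h2
    exact h2.symm
  rw [ofFn_eq, ofFn_eq, h0] at h1
  exact List.Perm.cons_inv h1

theorem nodup_tl (σ : Fin (k + 1) → Fin n) (h : Function.Injective σ) : (tl σ).Nodup := by
  have h1 := List.nodup_ofFn.2 h
  rw [ofFn_eq] at h1
  exact (List.nodup_cons.1 h1).2

end comb

section entry

variable {B : Type u} [CStarAlgebra B] {n : ℕ}

theorem gram_entry (x : CStarMatrix (Fin n) (Fin n) B) (g : Fin n → unitary B) (R k : ℕ)
    (f : Fin n → ZMod R) (j j' : Fin n) :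
    (star (Yf x g R k f) * Yf x g R k f) j j' = ∑ σ : Fin (k + 1) → Fin n,
      ∑ σ' : Fin (k + 1) → Fin n,
      if σ 0 = σ' 0 ∧ (σ (Fin.last k) = j ∧ freq R σ = f) ∧
        (σ' (Fin.last k) = j' ∧ freq R σ' = f) then
        star (rword x g (σ 0) (tl σ)) * rword x g (σ 0) (tl σ') else 0 := by
  classical
  rw [CStarMatrix.mul_apply]
  have h1 : ∀ i, (star (Yf x g R k f)) j i * (Yf x g R k f) i j' =
      ∑ σ : Fin (k + 1) → Fin n, ∑ σ' : Fin (k + 1) → Fin n,
        if σ 0 = i ∧ (σ' 0 = i ∧ (σ (Fin.last k) = j ∧ freq R σ = f) ∧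
          (σ' (Fin.last k) = j' ∧ freq R σ' = f)) then
        star (sword x g σ) * sword x g σ' else 0 := by
    intro i
    rw [CStarMatrix.star_apply]
    show star (∑ σ : Fin (k + 1) → Fin n, if σ 0 = i ∧ σ (Fin.last k) = j ∧ freq R σ = f then
      sword x g σ else 0) * (∑ σ : Fin (k + 1) → Fin n,
      if σ 0 = i ∧ σ (Fin.last k) = j' ∧ freq R σ = f then sword x g σ else 0) = _
    rw [star_sum, sum_mul_sum]
    refine sum_congr rfl fun σ _ => sum_congr rfl fun σ' _ => ?_
    by_cases c1 : σ 0 = i ∧ σ (Fin.last k) = j ∧ freq R σ = f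
    · by_cases c2 : σ' 0 = i ∧ σ' (Fin.last k) = j' ∧ freq R σ' = f
      · rw [if_pos c1, if_pos c2, if_pos ⟨c1.1, c2.1, c1.2, c2.2⟩]
      · rw [if_neg c2, mul_zero, if_neg]
        rintro ⟨_, h2, _, h3⟩
        exact c2 ⟨h2, h3⟩
    · rw [if_neg c1, star_zero, zero_mul, if_neg]
      rintro ⟨h1, _, h3, _⟩
      exact c1 ⟨h1, h3⟩
  rw [sum_congr rfl fun i _ => h1 i, sum_comm]
  refine sum_congr rfl fun σ _ => ?_
  rw [sum_comm]
  refine sum_congr rfl fun σ' _ => ?_
  rw [sum_eq_single (σ 0)]
  · by_cases c : σ 0 = σ' 0 ∧ (σ (Fin.last k) = j ∧ freq R σ = f) ∧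
        (σ' (Fin.last k) = j' ∧ freq R σ' = f)
    · rw [if_pos ⟨rfl, c.1.symm, c.2⟩, if_pos c]
      unfold sword
      rw [← c.1, star_mul]
      have h2 : star ((g (σ 0) : B)) * (g (σ 0) : B) = 1 := by
        exact Unitary.coe_star_mul_self (g (σ 0))
      calc star (rword x g (σ 0) (List.ofFn fun t : Fin k => σ t.succ)) * star (g (σ 0) : B) *
            ((g (σ 0) : B) * rword x g (σ 0) (List.ofFn fun t : Fin k => σ' t.succ))
          = star (rword x g (σ 0) (List.ofFn fun t : Fin k => σ t.succ)) *
            (star (g (σ 0) : B) * (g (σ 0) : B)) *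
            rword x g (σ 0) (List.ofFn fun t : Fin k => σ' t.succ) := by noncomm_ring
        _ = _ := by rw [h2, mul_one]; rfl
    · rw [if_neg c, if_neg]
      rintro ⟨_, h2, h3⟩
      exact c ⟨h2.symm, h3⟩
  · intro i _ hi
    rw [if_neg]
    rintro ⟨h2, _⟩
    exact hi h2.symm
  · intro h
    exact absurd (mem_univ _) h

end entry

end A12

open A12

theorem prove3_gram (h1 : K_word.{u}) (h2 : K_path) (h3 : K_entries.{u}) : K_gram.{u} := by
  classical
  intro B _ _ _ τ hτ n F X x K ε δ hε hF hX hx hδ k R _ hR hK
  -- the numbers p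
  have hp0 : ∀ i j, 0 ≤ pmat τ x i j := by
    intro i j
    exact (Complex.nonneg_iff.1 (hτ.pos (x i j))).1
  have hp1 : ∀ j, ∑ i, pmat τ x i j = 1 := by
    intro j
    have e1 : star x * x = 1 := (Unitary.mem_iff.1 hx).1
    have e2 : ∑ i, star (x i j) * x i j = 1 := by
      have e3 : (star x * x) j j = (1 : CStarMatrix (Fin n) (Fin n) B) j j := by rw [e1]
      rw [CStarMatrix.mul_apply, CStarMatrix.one_apply_eq] at e3
      rw [← e3]
      rfl
    unfold pmat
    rw [← Complex.re_sum, ← map_sum, e2, hτ.one]
    rfl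
  have hxn : ∀ i j, ‖x i j‖ ≤ 1 := by
    intro i j
    refine le_trans ((h3 B (Fin n) x).2 i j) ?_
    rcases subsingleton_or_nontrivial (CStarMatrix (Fin n) (Fin n) B) with hs | hs
    · rw [Subsingleton.elim x 0, norm_zero]
      exact zero_le_one
    · exact (CStarRing.norm_of_mem_unitary hx).le
  have hw0 : ∀ (l : List (Fin n)) (i : Fin n), 0 ≤ pword (pmat τ x) i l := by
    intro l
    induction l with
    | nil => intro i; exact zero_le_one
    | cons c l ih => intro i; exact mul_nonneg (hp0 i c) (ih c)
  have hpath := h2 n (pmat τ x) δ hp0 hp1 hδ k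
  -- the diagonals
  set W : (Fin (k + 1) → Fin n) → ℝ := fun σ => pword (pmat τ x) (σ 0) (tl σ) with hW
  have hlamsum : ∀ j, ∑ M ∈ univ.filter (fun M : Finset (Fin n) => M.card = k + 1 ∧ j ∈ M),
      (∑ σ ∈ univ.filter (fun σ : Fin (k + 1) → Fin n => σ (Fin.last k) = j ∧
        Function.Injective σ), if univ.image σ = M then W σ else 0) =
      ∑ σ ∈ univ.filter (fun σ : Fin (k + 1) → Fin n => σ (Fin.last k) = j ∧
        Function.Injective σ), W σ := by
    intro j
    rw [sum_comm]
    refine sum_congr rfl fun σ hσ => ?_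
    rw [sum_ite_eq, if_pos]
    have hσ' := (mem_filter.1 hσ).2
    rw [mem_filter]
    refine ⟨mem_univ _, ?_, ?_⟩
    · rw [card_image_of_injective _ hσ'.2, card_univ, Fintype.card_fin]
    · rw [← hσ'.1]
      exact mem_image_of_mem _ (mem_univ _)
  refine ⟨fun M j => ∑ σ ∈ univ.filter (fun σ : Fin (k + 1) → Fin n => σ (Fin.last k) = j ∧
        Function.Injective σ), if univ.image σ = M then W σ else 0, ?_, ?_, ?_, ?_⟩
  · intro M j
    refine sum_nonneg fun σ _ => ?_
    split_ifs
    · exact hw0 _ _
    · exact le_rfl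
  · intro M hM
    -- entries
    have hent : ∀ j j', ‖(fav F.Idx (fun s => star (Yf x (F.val s) R k (ind R M)) *
        Yf x (F.val s) R k (ind R M)) -
        dgc B (fun j => if j ∈ M then ∑ σ ∈ univ.filter (fun σ : Fin (k + 1) → Fin n =>
          σ (Fin.last k) = j ∧ Function.Injective σ), if univ.image σ = M then W σ else 0
          else 0)) j j'‖ ≤ n ^ (k + 1) * (n ^ (k + 1) * (2 * k * ε)) := by
      intro j j'
      have e1 : (fav F.Idx (fun s => star (Yf x (F.val s) R k (ind R M)) *
          Yf x (F.val s) R k (ind R M))) j j' = ∑ σ : Fin (k + 1) → Fin n,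
          ∑ σ' : Fin (k + 1) → Fin n,
          if σ 0 = σ' 0 ∧ (σ (Fin.last k) = j ∧ freq R σ = ind R M) ∧
            (σ' (Fin.last k) = j' ∧ freq R σ' = ind R M) then
            fav F.Idx (fun s => star (rword x (F.val s) (σ 0) (tl σ)) *
              rword x (F.val s) (σ 0) (tl σ')) else 0 := by
        rw [fav_ent]
        simp only [gram_entry]
        rw [fav_sum]
        refine sum_congr rfl fun σ _ => ?_
        rw [fav_sum]
        refine sum_congr rfl fun σ' _ => ?_
        rw [fav_ite]
      have e2 : (dgc B (fun j => if j ∈ M then ∑ σ ∈ univ.filter (fun σ : Fin (k + 1) → Fin n =>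
          σ (Fin.last k) = j ∧ Function.Injective σ), if univ.image σ = M then W σ else 0
          else 0)) j j' = ∑ σ : Fin (k + 1) → Fin n,
          ∑ σ' : Fin (k + 1) → Fin n,
          if σ 0 = σ' 0 ∧ (σ (Fin.last k) = j ∧ freq R σ = ind R M) ∧
            (σ' (Fin.last k) = j' ∧ freq R σ' = ind R M) then
            algebraMap ℂ B (if tl σ = tl σ' then
              (pword (pmat τ x) (σ 0) (tl σ) : ℂ) else 0) else 0 := by
        have e3 : ∀ σ : Fin (k + 1) → Fin n, (∑ σ' : Fin (k + 1) → Fin n,
          if σ 0 = σ' 0 ∧ (σ (Fin.last k) = j ∧ freq R σ = ind R M) ∧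
            (σ' (Fin.last k) = j' ∧ freq R σ' = ind R M) then
            algebraMap ℂ B (if tl σ = tl σ' then
              (pword (pmat τ x) (σ 0) (tl σ) : ℂ) else 0) else 0) =
            if j = j' ∧ σ (Fin.last k) = j ∧ Function.Injective σ ∧ univ.image σ = M then
              algebraMap ℂ B (W σ : ℂ) else 0 := by
          intro σ
          rw [sum_eq_single σ]
          · by_cases c : j = j' ∧ σ (Fin.last k) = j ∧ Function.Injective σ ∧ univ.image σ = M
            · have c' := (freq_iff R hR M hM σ).2 c.2.2
              rw [if_pos c, if_pos ⟨rfl, ⟨c.2.1, c'⟩, ⟨c.2.1.trans c.1, c'⟩⟩, if_pos rfl]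
            · rw [if_neg c, if_neg]
              rintro ⟨_, ⟨h4, h5⟩, ⟨h6, _⟩⟩
              exact c ⟨h4.symm.trans h6, h4, (freq_iff R hR M hM σ).1 h5⟩
          · intro σ' _ hne
            by_cases c : σ 0 = σ' 0 ∧ (σ (Fin.last k) = j ∧ freq R σ = ind R M) ∧
              (σ' (Fin.last k) = j' ∧ freq R σ' = ind R M)
            · rw [if_pos c, if_neg, map_zero]
              intro h4
              exact hne ((eq_iff σ σ' c.1).1 h4).symm
            · rw [if_neg c]
          · intro h
            exact absurd (mem_univ _) h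
        rw [sum_congr rfl fun σ _ => e3 σ]
        have e4 : (dgc B (fun j => if j ∈ M then ∑ σ ∈ univ.filter
            (fun σ : Fin (k + 1) → Fin n =>
            σ (Fin.last k) = j ∧ Function.Injective σ), if univ.image σ = M then W σ else 0
            else 0)) j j' = if j = j' then algebraMap ℂ B (((if j ∈ M then
              ∑ σ ∈ univ.filter (fun σ : Fin (k + 1) → Fin n =>
              σ (Fin.last k) = j ∧ Function.Injective σ), if univ.image σ = M then W σ else 0
              else 0 : ℝ) : ℂ)) else 0 := by
          show (Matrix.diagonal _ : Matrix (Fin n) (Fin n) B) j j' = _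
          rw [Matrix.diagonal_apply]
        rw [e4]
        by_cases hjj : j = j'
        · rw [if_pos hjj]
          have e5 : (if j ∈ M then
              ∑ σ ∈ univ.filter (fun σ : Fin (k + 1) → Fin n =>
              σ (Fin.last k) = j ∧ Function.Injective σ), if univ.image σ = M then W σ else 0
              else 0 : ℝ) = ∑ σ : Fin (k + 1) → Fin n,
              if σ (Fin.last k) = j ∧ Function.Injective σ ∧ univ.image σ = M then W σ
              else 0 := by
            have e6 : (∑ σ ∈ univ.filter (fun σ : Fin (k + 1) → Fin n =>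
              σ (Fin.last k) = j ∧ Function.Injective σ), if univ.image σ = M then W σ
                else 0) = ∑ σ : Fin (k + 1) → Fin n,
              if σ (Fin.last k) = j ∧ Function.Injective σ ∧ univ.image σ = M then W σ
              else 0 := by
              rw [sum_filter]
              refine sum_congr rfl fun σ _ => ?_
              by_cases c1 : σ (Fin.last k) = j ∧ Function.Injective σ
              · rw [if_pos c1]
                by_cases c2 : univ.image σ = M
                · rw [if_pos c2, if_pos ⟨c1.1, c1.2, c2⟩]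
                · rw [if_neg c2, if_neg]
                  rintro ⟨_, _, h4⟩
                  exact c2 h4
              · rw [if_neg c1, if_neg]
                rintro ⟨h4, h5, _⟩
                exact c1 ⟨h4, h5⟩
            rw [e6]
            by_cases hjM : j ∈ M
            · rw [if_pos hjM]
            · rw [if_neg hjM]
              symm
              refine sum_eq_zero fun σ _ => ?_
              rw [if_neg]
              rintro ⟨h4, _, h6⟩
              apply hjM
              rw [← h6, ← h4]
              exact mem_image_of_mem _ (mem_univ _)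
          rw [e5, Complex.ofReal_sum, map_sum]
          refine sum_congr rfl fun σ _ => ?_
          by_cases c : σ (Fin.last k) = j ∧ Function.Injective σ ∧ univ.image σ = M
          · rw [if_pos c, if_pos ⟨hjj, c⟩]
          · rw [if_neg c, if_neg, Complex.ofReal_zero, map_zero]
            rintro ⟨_, h4⟩
            exact c h4
        · rw [if_neg hjj]
          symm
          refine sum_eq_zero fun σ _ => ?_
          rw [if_neg]
          rintro ⟨h4, _⟩
          exact hjj h4
      have e7 : (fav F.Idx (fun s => star (Yf x (F.val s) R k (ind R M)) *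
          Yf x (F.val s) R k (ind R M)) -
          dgc B (fun j => if j ∈ M then ∑ σ ∈ univ.filter (fun σ : Fin (k + 1) → Fin n =>
          σ (Fin.last k) = j ∧ Function.Injective σ), if univ.image σ = M then W σ else 0
          else 0)) j j' = ∑ σ : Fin (k + 1) → Fin n, ∑ σ' : Fin (k + 1) → Fin n,
          if σ 0 = σ' 0 ∧ (σ (Fin.last k) = j ∧ freq R σ = ind R M) ∧
            (σ' (Fin.last k) = j' ∧ freq R σ' = ind R M) then
            (fav F.Idx (fun s => star (rword x (F.val s) (σ 0) (tl σ)) *
              rword x (F.val s) (σ 0) (tl σ')) -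
            algebraMap ℂ B (if tl σ = tl σ' then
              (pword (pmat τ x) (σ 0) (tl σ) : ℂ) else 0)) else 0 := by
        show (fav F.Idx (fun s => star (Yf x (F.val s) R k (ind R M)) *
          Yf x (F.val s) R k (ind R M))) j j' -
          (dgc B (fun j => if j ∈ M then ∑ σ ∈ univ.filter (fun σ : Fin (k + 1) → Fin n =>
          σ (Fin.last k) = j ∧ Function.Injective σ), if univ.image σ = M then W σ else 0
          else 0)) j j' = _
        rw [e1, e2, ← sum_sub_distrib]
        refine sum_congr rfl fun σ _ => ?_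
        rw [← sum_sub_distrib]
        refine sum_congr rfl fun σ' _ => ?_
        split_ifs
        · rfl
        · rfl
        · simp
      rw [e7]
      have hcard : ∀ c : ℝ, ∑ _σ : Fin (k + 1) → Fin n, c = n ^ (k + 1) * c := by
        intro c
        rw [sum_const, card_univ, Fintype.card_fun, Fintype.card_fin, Fintype.card_fin,
          nsmul_eq_mul]
        push_cast
        ring
      refine le_trans (norm_sum_le _ _) ?_
      rw [← hcard]
      refine sum_le_sum fun σ _ => ?_
      refine le_trans (norm_sum_le _ _) ?_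
      rw [← hcard]
      refine sum_le_sum fun σ' _ => ?_
      by_cases c : σ 0 = σ' 0 ∧ (σ (Fin.last k) = j ∧ freq R σ = ind R M) ∧
          (σ' (Fin.last k) = j' ∧ freq R σ' = ind R M)
      · rw [if_pos c]
        obtain ⟨c0, ⟨_, c1⟩, ⟨_, c2⟩⟩ := c
        obtain ⟨d1, d2⟩ := (freq_iff R hR M hM σ).1 c1
        obtain ⟨d3, d4⟩ := (freq_iff R hR M hM σ').1 c2
        have h4 := h1 B τ hτ n F X x K ε hε hF hX hxn (σ 0) (tl σ) (tl σ') (nodup_tl σ d1)
          (perm_tl σ σ' d1 d3 (d2.trans d4.symm) c0) (by rw [tl_length]; exact hK)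
        rw [tl_length] at h4
        exact h4
      · rw [if_neg c, norm_zero]
        positivity
    refine le_trans (h3 B (Fin n) _).1 ?_
    have h5 : ∑ j : Fin n, ∑ j' : Fin n, ‖(fav F.Idx (fun s =>
        star (Yf x (F.val s) R k (ind R M)) * Yf x (F.val s) R k (ind R M)) -
        dgc B (fun j => if j ∈ M then ∑ σ ∈ univ.filter (fun σ : Fin (k + 1) → Fin n =>
          σ (Fin.last k) = j ∧ Function.Injective σ), if univ.image σ = M then W σ else 0
          else 0)) j j'‖ ≤ ∑ _j : Fin n, ∑ _j' : Fin n,
          (n ^ (k + 1) * (n ^ (k + 1) * (2 * k * ε)) : ℝ) :=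
      sum_le_sum fun j _ => sum_le_sum fun j' _ => hent j j'
    refine le_trans h5 (le_of_eq ?_)
    rw [sum_const, sum_const, card_univ, Fintype.card_fin, nsmul_eq_mul, nsmul_eq_mul]
    ring
  · intro j
    simp only
    rw [hlamsum j]
    exact (hpath j).1
  · intro j
    simp only
    rw [hlamsum j]
    exact (hpath j).2

end H759R2.Kad
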